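import Mathlib

section

section

set_option autoImplicit false

open Finset Pointwise

namespace Pool.Agent.Lib.MP_d3cc86_co

variable {G : Type*} [AddCommGroup G] [DecidableEq G]

/-- The number of elements of `x + B` outside of `B`. -/
def lam (B : Finset G) (x : G) : ℕ := ((x +ᵥ B) \ B).card

lemma lam_add_inter (B : Finset G) (x : G) :
    lam B x + ((x +ᵥ B) ∩ B).card = B.card := by
  unfold lam
  rw [Finset.card_sdiff_add_card_inter, Finset.card_vadd_finset]

@[simp] lemma lam_zero (B : Finset G) : lam B 0 = 0 := by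
  simp [lam]

lemma lam_neg (B : Finset G) (x : G) : lam B (-x) = lam B x := by
  have h1 := lam_add_inter B x
  have h2 := lam_add_inter B (-x)
  have h3 : (-x +ᵥ B) ∩ B = -x +ᵥ (B ∩ (x +ᵥ B)) := by
    rw [Finset.vadd_finset_inter]
    simp
  have h4 : ((-x +ᵥ B) ∩ B).card = ((x +ᵥ B) ∩ B).card := by
    rw [h3, Finset.card_vadd_finset, Finset.inter_comm]
  omega

lemma lam_add (B : Finset G) (x y : G) : lam B (x + y) ≤ lam B x + lam B y := by
  unfold lam
  have h : (((x + y) +ᵥ B) \ B) ⊆ (x +ᵥ ((y +ᵥ B) \ B)) ∪ ((x +ᵥ B) \ B) := by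
    intro z hz
    rw [Finset.mem_sdiff] at hz
    obtain ⟨hz1, hz2⟩ := hz
    rw [Finset.mem_union, Finset.mem_sdiff]
    rw [Finset.mem_vadd_finset] at hz1
    obtain ⟨b, hb, rfl⟩ := hz1
    by_cases h : y +ᵥ b ∈ B
    · right
      refine ⟨?_, hz2⟩
      rw [Finset.mem_vadd_finset]
      exact ⟨y +ᵥ b, h, by simp [add_assoc]⟩
    · left
      rw [Finset.mem_vadd_finset]
      refine ⟨y +ᵥ b, ?_, by simp [add_assoc]⟩
      rw [Finset.mem_sdiff]
      exact ⟨Finset.vadd_mem_vadd_finset hb, h⟩
  calc _ ≤ _ := Finset.card_le_card h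
    _ ≤ _ := Finset.card_union_le _ _
    _ = _ := by rw [Finset.card_vadd_finset, add_comm]

lemma sum_inter_le (B C : Finset G) : ∑ c ∈ C, ((c +ᵥ B) ∩ B).card ≤ B.card * B.card := by
  rw [← Finset.card_sigma, ← Finset.card_product]
  apply Finset.card_le_card_of_injOn (fun p => (p.2, p.2 - p.1))
  · rintro ⟨c, z⟩ h
    simp only [Finset.coe_sigma, Set.mem_sigma_iff, Finset.mem_coe, Finset.mem_inter,
      Finset.mem_vadd_finset] at h
    obtain ⟨_, ⟨b, hb, hbz⟩, hz⟩ := h
    simp only [Finset.coe_product, Set.mem_prod, Finset.mem_coe]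
    refine ⟨hz, ?_⟩
    have : z - c = b := by rw [← hbz]; simp
    rw [this]; exact hb
  · rintro ⟨c, z⟩ _ ⟨c', z'⟩ _ h
    simp only [Prod.mk.injEq] at h
    obtain ⟨rfl, h2⟩ := h
    have : c = c' := by
      have := h2
      simpa using this
    subst this
    rfl

lemma card_mul_le_sum_lam (B C : Finset G) :
    B.card * C.card ≤ ∑ c ∈ C, lam B c + B.card * B.card := by
  have h : ∑ c ∈ C, (lam B c + ((c +ᵥ B) ∩ B).card) = C.card * B.card := by
    rw [Finset.sum_congr rfl (fun c _ => lam_add_inter B c)]
    simp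
  rw [Finset.sum_add_distrib] at h
  have h2 := sum_inter_le B C
  nlinarith

/-- If every translate by `x` fixes the finite set `K` and `B ⊆ K`, then the complement of `B` in
`K` has the same value of `lam`. -/
lemma lam_compl {K B : Finset G} {x : G} (hB : B ⊆ K) (hx : x +ᵥ K = K) :
    lam (K \ B) x = lam B x := by
  have h1 : (x +ᵥ (K \ B)) \ (K \ B) = B \ (x +ᵥ B) := by
    rw [Finset.vadd_finset_sdiff, hx]
    ext z
    simp only [Finset.mem_sdiff]
    constructor
    · rintro ⟨⟨h1, h2⟩, h3⟩
      refine ⟨?_, h2⟩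
      by_contra h
      exact h3 ⟨h1, h⟩
    · rintro ⟨h1, h2⟩
      exact ⟨⟨hB h1, h2⟩, fun h => h.2 h1⟩
  have h2 : (B \ (x +ᵥ B)).card + (B ∩ (x +ᵥ B)).card = B.card :=
    Finset.card_sdiff_add_card_inter _ _
  have h3 := lam_add_inter B x
  rw [Finset.inter_comm] at h2
  unfold lam at *
  rw [h1]
  omega

lemma card_union_vadd (B : Finset G) (x : G) : (B ∪ (x +ᵥ B)).card = B.card + lam B x := by
  rw [Finset.union_comm, ← Finset.sdiff_union_self_eq_union, Finset.card_union_of_disjoint]
  · unfold lam; omega
  · exact Finset.sdiff_disjoint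

end Pool.Agent.Lib.MP_d3cc86_co
end

section

set_option autoImplicit false

open Finset Pointwise

namespace Pool.Agent.Lib.MP_d3cc86_co

variable {G : Type*} [AddCommGroup G] [DecidableEq G] [Fintype G]

/-- Isoperimetric inequality: if `S` is symmetric, contains `0` and generates the finite abelian
group, then `|X + S| ≥ |X| + |S| / 2` unless `X + S` is everything. -/
lemma isoperimetric {S : Finset G} (h0 : (0 : G) ∈ S) (hsymm : ∀ s ∈ S, -s ∈ S)
    (hgen : AddSubgroup.closure (S : Set G) = ⊤) {X : Finset G} (hX : X.Nonempty)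
    (hXS : X + S ≠ univ) : 2 * X.card + S.card ≤ 2 * (X + S).card := by
  classical
  set N := Fintype.card G with hN
  have hcard : ∀ Y : Finset G, Y.card ≤ N := fun Y => Finset.card_le_univ Y
  have hsub : ∀ Y : Finset G, Y ⊆ Y + S := by
    intro Y y hy
    rw [Finset.mem_add]
    exact ⟨y, hy, 0, h0, add_zero y⟩
  have hle : ∀ Y : Finset G, Y.card ≤ (Y + S).card := fun Y => Finset.card_le_card (hsub Y)
  let f : Finset G → ℕ := fun Y => ((Y + S).card - Y.card) * (N + 1) + Y.card
  let F : Finset (Finset G) := univ.filter (fun Y => Y.Nonempty ∧ Y + S ≠ univ)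
  have hF : F.Nonempty := ⟨X, by simp [F, hX, hXS]⟩
  obtain ⟨Z, hZF, hZmin⟩ := Finset.exists_min_image F f hF
  have hZ' : Z.Nonempty ∧ Z + S ≠ univ := by simpa [F] using hZF
  obtain ⟨z0, hz0⟩ := hZ'.1
  -- translate so that 0 is in the atom
  obtain ⟨W, hW0, hWne, hWcard, hWScard⟩ : ∃ W : Finset G, (0 : G) ∈ W ∧ W + S ≠ univ ∧
      W.card = Z.card ∧ (W + S).card = (Z + S).card := by
    refine ⟨(-z0) +ᵥ Z, ?_, ?_, ?_, ?_⟩
    · rw [Finset.mem_vadd_finset]; exact ⟨z0, hz0, by simp⟩
    · rw [vadd_add_assoc]
      intro h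
      exact hZ'.2 (Finset.vadd_finset_eq_univ.mp h)
    · rw [Finset.card_vadd_finset]
    · rw [vadd_add_assoc, Finset.card_vadd_finset]
  have hmin : ∀ Y : Finset G, Y.Nonempty → Y + S ≠ univ → f W ≤ f Y := by
    intro Y hY1 hY2
    have h1 : f W = f Z := by simp only [f, hWcard, hWScard]
    rw [h1]
    exact hZmin Y (by simp [F, hY1, hY2])
  set κ := (W + S).card - W.card with hκ
  have hκ' : (W + S).card = W.card + κ := by have := hle W; omega
  have hfW : f W = κ * (N + 1) + W.card := rfl
  -- key consequence of minimality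
  have hk : ∀ Y : Finset G, Y.Nonempty → Y + S ≠ univ → Y.card + κ ≤ (Y + S).card := by
    intro Y hY1 hY2
    have h1 := hmin Y hY1 hY2
    rw [hfW] at h1
    simp only [f] at h1
    by_contra hcon
    push Not at hcon
    have h2 : (Y + S).card - Y.card + 1 ≤ κ := by have := hle Y; omega
    have h3 : ((Y + S).card - Y.card + 1) * (N + 1) ≤ κ * (N + 1) := Nat.mul_le_mul_right _ h2
    have h4 := hcard Y
    nlinarith
  have hk2 : ∀ Y : Finset G, Y.Nonempty → Y + S ≠ univ → Y.card < W.card →
      Y.card + κ + 1 ≤ (Y + S).card := by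
    intro Y hY1 hY2 hY3
    have h1 := hmin Y hY1 hY2
    rw [hfW] at h1
    simp only [f] at h1
    by_contra hcon
    push Not at hcon
    have h2 : (Y + S).card - Y.card ≤ κ := by have := hle Y; omega
    have h3 : ((Y + S).card - Y.card) * (N + 1) ≤ κ * (N + 1) := Nat.mul_le_mul_right _ h2
    omega
  -- W is closed under subtraction
  have hclosed : ∀ g ∈ W, (-g) +ᵥ W = W := by
    intro g hg
    by_contra hne
    set Y : Finset G := (-g) +ᵥ W with hY
    have hYS : Y + S = (-g) +ᵥ (W + S) := vadd_add_assoc _ _ _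
    have hYcard : Y.card = W.card := Finset.card_vadd_finset _ _
    have hYScard : (Y + S).card = (W + S).card := by rw [hYS, Finset.card_vadd_finset]
    have hY0 : (0 : G) ∈ Y := by
      rw [hY, Finset.mem_vadd_finset]; exact ⟨g, hg, by simp⟩
    have hint : (W ∩ Y).Nonempty := ⟨0, by simp [hW0, hY0]⟩
    have hintlt : (W ∩ Y).card < W.card := by
      apply Finset.card_lt_card
      refine ⟨Finset.inter_subset_left, fun h => hne ?_⟩
      have h1 : W ⊆ Y := fun x hx => (Finset.mem_inter.mp (h hx)).2
      exact (Finset.eq_of_subset_of_card_le h1 hYcard.le).symm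
    have hintS : (W ∩ Y) + S ⊆ (W + S) ∩ (Y + S) := Finset.inter_add_subset
    have hintne : (W ∩ Y) + S ≠ univ := by
      intro h
      apply hWne
      apply Finset.eq_univ_of_forall
      intro x
      have : x ∈ (W ∩ Y) + S := by rw [h]; exact Finset.mem_univ x
      exact (Finset.mem_inter.mp (hintS this)).1
    have e1 := hk2 _ hint hintne hintlt
    have e2 : ((W ∩ Y) + S).card ≤ ((W + S) ∩ (Y + S)).card := Finset.card_le_card hintS
    have e3 : ((W ∪ Y) + S).card + ((W + S) ∩ (Y + S)).card = (W + S).card + (Y + S).card := by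
      rw [Finset.union_add]
      exact Finset.card_union_add_card_inter _ _
    have e4 : (W ∪ Y).card + (W ∩ Y).card = W.card + Y.card :=
      Finset.card_union_add_card_inter _ _
    have huniv : (W ∪ Y) + S = univ := by
      by_contra hcon
      have e5 := hk (W ∪ Y) ⟨0, by simp [hW0]⟩ hcon
      omega
    have e6 : ((W ∪ Y) + S).card = N := by rw [huniv]; exact Finset.card_univ
    -- duality
    set X' : Finset G := univ \ (W + S) with hX'
    have hX'ne : X'.Nonempty := by
      rw [hX']
      rw [Finset.sdiff_nonempty]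
      intro h
      exact hWne (Finset.univ_subset_iff.mp h)
    have hX'S : X' + S ⊆ univ \ W := by
      intro x hx
      rw [Finset.mem_add] at hx
      obtain ⟨y, hy, s, hs, rfl⟩ := hx
      rw [Finset.mem_sdiff]
      refine ⟨Finset.mem_univ _, fun h => ?_⟩
      rw [hX', Finset.mem_sdiff] at hy
      apply hy.2
      rw [Finset.mem_add]
      exact ⟨y + s, h, -s, hsymm s hs, by simp⟩
    have hX'Sne : X' + S ≠ univ := by
      intro h
      have : (0 : G) ∈ X' + S := by rw [h]; exact Finset.mem_univ _
      exact (Finset.mem_sdiff.mp (hX'S this)).2 hW0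
    have c1 : X'.card + (W + S).card = N := by
      rw [hX', Finset.card_sdiff_of_subset (Finset.subset_univ _), Finset.card_univ]
      have := hcard (W + S)
      omega
    have c2 : (X' + S).card ≤ N - W.card := by
      have := Finset.card_le_card hX'S
      rwa [Finset.card_sdiff_of_subset (Finset.subset_univ _), Finset.card_univ] at this
    have c3 : W.card ≤ X'.card := by
      by_contra hcon
      push Not at hcon
      have c4 := hk2 X' hX'ne hX'Sne hcon
      have := hcard W
      omega
    omega
  -- W is a subgroup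
  let H : AddSubgroup G :=
    { carrier := W
      zero_mem' := hW0
      add_mem' := by
        intro a b ha hb
        have h1 : -a ∈ W := by
          have := hclosed a ha
          have h2 : (-a) +ᵥ (0 : G) ∈ (-a) +ᵥ W := Finset.vadd_mem_vadd_finset hW0
          rw [this] at h2
          simpa using h2
        have h3 := hclosed (-a) h1
        have h4 : (- -a) +ᵥ b ∈ (- -a) +ᵥ W := Finset.vadd_mem_vadd_finset hb
        rw [h3] at h4
        simpa using h4
      neg_mem' := by
        intro a ha
        have := hclosed a ha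
        have h2 : (-a) +ᵥ (0 : G) ∈ (-a) +ᵥ W := Finset.vadd_mem_vadd_finset hW0
        rw [this] at h2
        simpa using h2 }
  have hHmem : ∀ x, x ∈ H ↔ x ∈ W := fun x => Iff.rfl
  have hexs : ∃ s ∈ S, s ∉ W := by
    by_contra hcon
    push Not at hcon
    have h1 : AddSubgroup.closure (S : Set G) ≤ H := by
      rw [AddSubgroup.closure_le]
      intro s hs
      exact hcon s hs
    rw [hgen] at h1
    apply hWne
    apply Finset.eq_univ_of_forall
    intro x
    apply hsub W
    exact h1 (AddSubgroup.mem_top x)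
  obtain ⟨s, hs, hsW⟩ := hexs
  have hdisj : Disjoint W (s +ᵥ W) := by
    rw [Finset.disjoint_left]
    intro x hx hx'
    rw [Finset.mem_vadd_finset] at hx'
    obtain ⟨y, hy, rfl⟩ := hx'
    apply hsW
    have h1 : s + y ∈ H := hx
    have h2 : y ∈ H := hy
    have h3 : s + y - y ∈ H := H.sub_mem h1 h2
    rw [add_sub_cancel_right] at h3
    exact (hHmem s).mp h3
  have hdouble : 2 * W.card ≤ (W + S).card := by
    have h1 : W ∪ (s +ᵥ W) ⊆ W + S := by
      apply Finset.union_subset (hsub W)
      intro x hx
      rw [Finset.mem_vadd_finset] at hx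
      obtain ⟨y, hy, rfl⟩ := hx
      rw [Finset.mem_add]
      exact ⟨y, hy, s, hs, by simp [add_comm]⟩
    have h2 := Finset.card_le_card h1
    rw [Finset.card_union_of_disjoint hdisj, Finset.card_vadd_finset] at h2
    omega
  have hSle : S.card ≤ (W + S).card := by
    apply Finset.card_le_card
    intro x hx
    rw [Finset.mem_add]
    exact ⟨0, hW0, x, hx, zero_add x⟩
  have hfin := hk X hX hXS
  omega

/-- Growth of iterated sumsets of a symmetric generating set. -/
lemma two_mul_card_nsmul_ge {S : Finset G} (h0 : (0 : G) ∈ S) (hsymm : ∀ s ∈ S, -s ∈ S)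
    (hgen : AddSubgroup.closure (S : Set G) = ⊤) (k : ℕ) (hk : 1 ≤ k) (hne : k • S ≠ univ) :
    (k + 1) * S.card ≤ 2 * (k • S).card := by
  induction k, hk using Nat.le_induction with
  | base => simp
  | succ k hk ih =>
    rw [succ_nsmul] at hne ⊢
    have hsub : k • S ⊆ k • S + S := by
      intro y hy
      rw [Finset.mem_add]
      exact ⟨y, hy, 0, h0, add_zero y⟩
    have hne' : k • S ≠ univ := by
      intro h
      apply hne
      apply Finset.univ_subset_iff.mp
      rw [← h]
      exact hsub
    have h1 := ih hne'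
    have hnonempty : (k • S).Nonempty := ⟨0, by
      have : (0 : G) ∈ k • S := by
        have := Finset.nsmul_mem_nsmul (s := S) (n := k) h0
        simpa using this
      exact this⟩
    have h2 := isoperimetric h0 hsymm hgen hnonempty hne
    nlinarith

end Pool.Agent.Lib.MP_d3cc86_co
end

section

set_option autoImplicit false

open Finset Pointwise

namespace Pool.Agent.Lib.MP_d3cc86_co

variable {G : Type*} [AddCommGroup G] [DecidableEq G]

lemma lam_nsmul_le {B S : Finset G} {l : ℕ} (h : ∀ x ∈ S, lam B x ≤ l) (k : ℕ) :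
    ∀ c ∈ k • S, lam B c ≤ k * l := by
  induction k with
  | zero =>
    intro c hc
    simp at hc
    subst hc
    simp
  | succ k ih =>
    intro c hc
    rw [succ_nsmul, Finset.mem_add] at hc
    obtain ⟨y, hy, z, hz, rfl⟩ := hc
    have h1 := lam_add B y z
    have h2 := ih y hy
    have h3 := h z hz
    nlinarith

lemma nsmul_mono_zero {S : Finset G} (h0 : (0 : G) ∈ S) {k l : ℕ} (hkl : k ≤ l) :
    k • S ⊆ l • S := by
  induction l, hkl using Nat.le_induction with
  | base => exact Finset.Subset.refl _
  | succ l hl ih =>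
    intro x hx
    rw [succ_nsmul, Finset.mem_add]
    exact ⟨x, ih hx, 0, h0, add_zero x⟩

lemma sum_range_aux (b s : ℤ) (q : ℕ) :
    ∑ k ∈ Finset.range q, (8 * b - 2 * ((k : ℤ) + 2) * s) = 8 * b * q - s * (q * (q + 3)) := by
  induction q with
  | zero => simp
  | succ q ih =>
    rw [Finset.sum_range_succ, ih]
    push_cast
    ring

variable [Fintype G]

/-- Olson's lemma. -/
lemma olson {S B : Finset G} (h0 : (0 : G) ∈ S) (hsymm : ∀ s ∈ S, -s ∈ S)
    (hgen : AddSubgroup.closure (S : Set G) = ⊤) (hB : B.Nonempty)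
    (hB2 : 2 * B.card ≤ Fintype.card G) {l : ℕ} (hl : ∀ x ∈ S, lam B x ≤ l) :
    min (2 * B.card + 2) (S.card + 1) ≤ 4 * l := by
  classical
  set b := B.card with hb
  set s := S.card with hs
  set N := Fintype.card G with hN
  have hb1 : 1 ≤ b := hB.card_pos
  have hs1 : 1 ≤ s := Finset.card_pos.mpr ⟨0, h0⟩
  have hex : ∃ r : ℕ, 2 * b ≤ (r • S).card := by
    by_cases hu : (2 * N + 1) • S = univ
    · exact ⟨2 * N + 1, by rw [hu, Finset.card_univ]; exact hB2⟩
    · exfalso
      have h1 := two_mul_card_nsmul_ge h0 hsymm hgen (2 * N + 1) (by omega) hu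
      have h2 : ((2 * N + 1) • S).card ≤ N := Finset.card_le_univ _
      nlinarith
  set r := Nat.find hex with hr
  have hr1 : 2 * b ≤ (r • S).card := Nat.find_spec hex
  have hr2 : ∀ k < r, (k • S).card < 2 * b := by
    intro k hk
    have := Nat.find_min hex hk
    omega
  have hr0 : 1 ≤ r := by
    by_contra hcon
    have h1 : r = 0 := by omega
    rw [h1] at hr1
    simp at hr1
    omega
  obtain ⟨q, hq⟩ : ∃ q, r = q + 1 := ⟨r - 1, by omega⟩
  obtain ⟨C, hC1, hC2, hC3⟩ := Finset.exists_subsuperset_card_eq
    (nsmul_mono_zero h0 (show q ≤ r by omega)) (hr2 q (by omega)).le hr1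
  let d : G → ℕ := fun c => ((Finset.range r).filter (fun k => c ∉ k • S)).card
  have hd : ∀ c ∈ C, lam B c ≤ d c * l := by
    intro c hc
    apply lam_nsmul_le hl
    by_contra hcon
    have hdr : d c ≤ r := by
      have := Finset.card_filter_le (Finset.range r) (fun k => c ∉ k • S)
      simpa [d] using this
    by_cases hdr' : d c = r
    · apply hcon
      rw [hdr']
      exact hC2 hc
    · have h1 : Finset.range (d c + 1) ⊆ (Finset.range r).filter (fun k => c ∉ k • S) := by
        intro k hk
        rw [Finset.mem_range] at hk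
        rw [Finset.mem_filter, Finset.mem_range]
        refine ⟨by omega, fun h => hcon ?_⟩
        exact nsmul_mono_zero h0 (by omega) h
      have h2 := Finset.card_le_card h1
      rw [Finset.card_range] at h2
      change d c + 1 ≤ d c at h2
      omega
  have hsumd : ∑ c ∈ C, d c = ∑ k ∈ Finset.range r, (2 * b - (k • S).card) := by
    have h1 : ∀ c ∈ C, d c = ∑ k ∈ Finset.range r, if c ∉ k • S then 1 else 0 := by
      intro c _
      simp only [d]
      rw [Finset.card_filter]
    rw [Finset.sum_congr rfl h1, Finset.sum_comm]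
    apply Finset.sum_congr rfl
    intro k hk
    rw [Finset.mem_range] at hk
    rw [← Finset.card_filter]
    have h2 : C.filter (fun c => c ∉ k • S) = C \ (k • S) := by
      ext x; simp
    rw [h2, Finset.card_sdiff_of_subset, hC3]
    exact (nsmul_mono_zero h0 (show k ≤ q by omega)).trans hC1
  have hmain : b * (2 * b) ≤ (∑ c ∈ C, d c) * l + b * b := by
    have h1 := card_mul_le_sum_lam B C
    rw [hC3] at h1
    have h2 : ∑ c ∈ C, lam B c ≤ ∑ c ∈ C, d c * l := Finset.sum_le_sum hd
    rw [← Finset.sum_mul] at h2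
    exact h1.trans (Nat.add_le_add_right h2 _)
  -- bound on the sum of distances
  have hbound : (4 : ℤ) * ((∑ c ∈ C, d c : ℕ) : ℤ) ≤
      8 * b - 4 + 8 * b * q - s * (q * (q + 3)) := by
    rw [hsumd, hq, Finset.sum_range_succ']
    push_cast
    have e0 : ((2 * b - (0 • S).card : ℕ) : ℤ) = 2 * b - 1 := by
      simp
      omega
    have e1 : ∀ k ∈ Finset.range q,
        4 * ((2 * b - ((k + 1) • S).card : ℕ) : ℤ) ≤ 8 * b - 2 * ((k : ℤ) + 2) * s := by
      intro k hk
      rw [Finset.mem_range] at hk
      have h1 := hr2 (k + 1) (by omega)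
      have hne : (k + 1) • S ≠ univ := by
        intro h
        rw [h, Finset.card_univ] at h1
        omega
      have h2 := two_mul_card_nsmul_ge h0 hsymm hgen (k + 1) (by omega) hne
      rw [Nat.cast_sub h1.le]
      have h3 : (((k + 1 + 1) * S.card : ℕ) : ℤ) ≤ ((2 * ((k + 1) • S).card : ℕ) : ℤ) := by
        exact_mod_cast h2
      push_cast at h3 ⊢
      rw [← hs] at h3
      linarith
    have e2 := Finset.sum_le_sum e1
    rw [sum_range_aux, ← Finset.mul_sum] at e2
    rw [mul_add, e0]
    linarith
  have hmain' : (4 : ℤ) * b * b ≤ l * (8 * b - 4 + 8 * b * q - s * (q * (q + 3))) := by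
    have h1 : ((b * (2 * b) : ℕ) : ℤ) ≤ (((∑ c ∈ C, d c) * l + b * b : ℕ) : ℤ) := by
      exact_mod_cast hmain
    push_cast at h1
    have h2 : (l : ℤ) * (4 * ((∑ c ∈ C, d c : ℕ) : ℤ)) ≤
      l * (8 * b - 4 + 8 * b * q - s * (q * (q + 3))) :=
      mul_le_mul_of_nonneg_left hbound (by positivity)
    push_cast at h2
    nlinarith
  rcases Nat.eq_zero_or_pos q with hq0 | hq0
  · -- r = 1
    rw [hq0] at hmain'
    have h2 : 2 * b + 2 ≤ 4 * l := by
      by_contra hcon
      push Not at hcon
      have h3 : 2 * l ≤ b := by omega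
      have h3' : (2 : ℤ) * l ≤ b := by exact_mod_cast h3
      have hb1' : (1 : ℤ) ≤ b := by exact_mod_cast hb1
      simp at hmain'
      nlinarith
    exact (min_le_left _ _).trans h2
  · have h2 : s + 1 ≤ 4 * l := by
      by_contra hcon
      push Not at hcon
      have h3 : 4 * l ≤ s := by omega
      have h3' : (4 : ℤ) * l ≤ s := by exact_mod_cast h3
      have hb1' : (1 : ℤ) ≤ b := by exact_mod_cast hb1
      have hs1' : (1 : ℤ) ≤ s := by exact_mod_cast hs1
      have hq1' : (1 : ℤ) ≤ q := by exact_mod_cast hq0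
      have hl0 : (0 : ℤ) ≤ l := by positivity
      set E : ℤ := 8 * b - 4 + 8 * b * q - s * (q * (q + 3)) with hE
      have hEpos : 0 < E := by
        by_contra hcon2
        push Not at hcon2
        have : (l : ℤ) * E ≤ 0 := mul_nonpos_of_nonneg_of_nonpos hl0 hcon2
        nlinarith
      have h4 : 4 * ((l : ℤ) * E) ≤ s * E := by
        have := mul_le_mul_of_nonneg_right h3' hEpos.le
        linarith
      have h5 : (16 : ℤ) * b * b ≤ s * E := by linarith
      have h6 : (s : ℤ) * E = 8 * b * s * (q + 1) - 4 * s - s ^ 2 * (q * (q + 3)) := by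
        rw [hE]; ring
      have h7 : (4 * (b : ℤ) - (q + 1) * s) ^ 2 =
          16 * b * b - 8 * b * s * (q + 1) + (q + 1) ^ 2 * s ^ 2 := by ring
      have h8 : (0 : ℤ) ≤ (4 * (b : ℤ) - (q + 1) * s) ^ 2 := sq_nonneg _
      have h9 : (0 : ℤ) ≤ ((q : ℤ) - 1) * s ^ 2 :=
        mul_nonneg (sub_nonneg.mpr hq1') (sq_nonneg (s : ℤ))
      rw [h7] at h8
      have h10 : (16 * b * b - 8 * b * s * (q + 1) + (q + 1) ^ 2 * s ^ 2 : ℤ) +
          ((q : ℤ) - 1) * s ^ 2 + 4 * s ≤ 0 := by
        rw [h6] at h5
        have h11 : (8 * b * s * (q + 1) - 4 * s - s ^ 2 * (q * (q + 3)) : ℤ) -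
          8 * b * s * (q + 1) + (q + 1) ^ 2 * s ^ 2 + ((q : ℤ) - 1) * s ^ 2 + 4 * s = 0 := by ring
        linarith
      linarith
    exact (min_le_right _ _).trans h2

end Pool.Agent.Lib.MP_d3cc86_co
end
end

section

set_option autoImplicit false

open Finset Pointwise

namespace Pool.Agent.Lib.MP_d3cc86_co

variable {G : Type*} [AddCommGroup G] [DecidableEq G]

lemma subsetSum_empty' : (∅ : Finset G).subsetSum = {0} := by
  ext x
  rw [Finset.mem_subsetSum_iff]
  simp [eq_comm]

lemma subsetSum_union {T V : Finset G} (h : Disjoint T V) :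
    (T ∪ V).subsetSum = T.subsetSum + V.subsetSum := by
  ext x
  rw [Finset.mem_subsetSum_iff, Finset.mem_add]
  constructor
  · rintro ⟨B, hB, rfl⟩
    refine ⟨∑ b ∈ B ∩ T, b, ?_, ∑ b ∈ B ∩ V, b, ?_, ?_⟩
    · rw [Finset.mem_subsetSum_iff]; exact ⟨_, Finset.inter_subset_right, rfl⟩
    · rw [Finset.mem_subsetSum_iff]; exact ⟨_, Finset.inter_subset_right, rfl⟩
    · rw [← Finset.sum_union]
      · congr 1
        rw [← Finset.inter_union_distrib_left]
        exact Finset.inter_eq_left.mpr hB
      · exact Finset.disjoint_of_subset_left Finset.inter_subset_right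
          (Finset.disjoint_of_subset_right Finset.inter_subset_right h)
  · rintro ⟨y, hy, z, hz, rfl⟩
    rw [Finset.mem_subsetSum_iff] at hy hz
    obtain ⟨B, hB, rfl⟩ := hy
    obtain ⟨C, hC, rfl⟩ := hz
    refine ⟨B ∪ C, Finset.union_subset_union hB hC, ?_⟩
    rw [Finset.sum_union]
    exact Finset.disjoint_of_subset_left hB (Finset.disjoint_of_subset_right hC h)

lemma subsetSum_singleton' (x : G) : ({x} : Finset G).subsetSum = {0, x} := by
  ext y
  rw [Finset.mem_subsetSum_iff]
  constructor
  · rintro ⟨B, hB, rfl⟩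
    rw [Finset.subset_singleton_iff] at hB
    rcases hB with rfl | rfl <;> simp
  · intro h
    simp only [Finset.mem_insert, Finset.mem_singleton] at h
    rcases h with rfl | rfl
    · exact ⟨∅, by simp, by simp⟩
    · exact ⟨{y}, by simp, by simp⟩

lemma subsetSum_insert' {T : Finset G} {x : G} (h : x ∉ T) :
    (insert x T).subsetSum = T.subsetSum ∪ (x +ᵥ T.subsetSum) := by
  rw [Finset.insert_eq, subsetSum_union (by simpa using h), subsetSum_singleton']
  ext y
  simp only [Finset.mem_add, Finset.mem_insert, Finset.mem_singleton, Finset.mem_union,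
    Finset.mem_vadd_finset, vadd_eq_add]
  constructor
  · rintro ⟨a, rfl | rfl, b, hb, rfl⟩
    · left; simpa using hb
    · right; exact ⟨b, hb, rfl⟩
  · rintro (h | ⟨b, hb, rfl⟩)
    · exact ⟨0, Or.inl rfl, y, h, by simp⟩
    · exact ⟨x, Or.inr rfl, b, hb, rfl⟩

/-- Asymmetric set: no element has its negative in the set. -/
def Asym (A : Finset G) : Prop := ∀ a ∈ A, -a ∉ A

omit [DecidableEq G] in
lemma Asym.mono {A V : Finset G} (h : Asym A) (hV : V ⊆ A) : Asym V :=
  fun a ha hna => h a (hV ha) (hV hna)

omit [DecidableEq G] in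
lemma Asym.zero_notMem {A : Finset G} (h : Asym A) : (0 : G) ∉ A := by
  intro h0
  exact h 0 h0 (by simpa using h0)

/-- the symmetric closure with zero -/
def symz (V : Finset G) : Finset G := insert 0 (V ∪ -V)

lemma card_symz {V : Finset G} (h : Asym V) : (symz V).card = 2 * V.card + 1 := by
  unfold symz
  rw [Finset.card_insert_of_notMem, Finset.card_union_of_disjoint, Finset.card_neg]
  · ring
  · rw [Finset.disjoint_left]
    intro a ha hna
    rw [Finset.mem_neg'] at hna
    exact h a ha hna
  · rw [Finset.mem_union, Finset.mem_neg']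
    rintro (h0 | h0)
    · exact h.zero_notMem h0
    · exact h.zero_notMem (by simpa using h0)

variable [Fintype G]

lemma Asym.card_le {A : Finset G} (h : Asym A) : 2 * A.card + 1 ≤ Fintype.card G := by
  rw [← card_symz h]
  exact Finset.card_le_univ _

/-- One step of the greedy process. -/
lemma olson_step {V B : Finset G} (hV : Asym V) (hgen : AddSubgroup.closure (V : Set G) = ⊤)
    (hB : B.Nonempty) (hB2 : B.card < Fintype.card G) :
    ∃ x ∈ V, min (2 * min B.card (Fintype.card G - B.card) + 2) (2 * V.card + 2) ≤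
      4 * lam B x := by
  classical
  have hVne : V.Nonempty := by
    by_contra hcon
    rw [Finset.not_nonempty_iff_eq_empty] at hcon
    rw [hcon] at hgen
    simp only [Finset.coe_empty, AddSubgroup.closure_empty] at hgen
    have hsub : Subsingleton G := by
      rw [← AddSubgroup.subsingleton_iff]
      exact subsingleton_of_bot_eq_top hgen
    have h1 : Fintype.card G ≤ 1 := Fintype.card_le_one_iff_subsingleton.mpr hsub
    have h2 := hB.card_pos
    omega
  obtain ⟨x, hx, hmax⟩ := Finset.exists_max_image V (lam B) hVne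
  refine ⟨x, hx, ?_⟩
  have h0 : (0 : G) ∈ symz V := by simp [symz]
  have hsymm : ∀ s ∈ symz V, -s ∈ symz V := by
    intro s hs
    simp only [symz, Finset.mem_insert, Finset.mem_union, Finset.mem_neg'] at hs ⊢
    rcases hs with rfl | hs | hs
    · simp
    · right; right; simpa using hs
    · right; left; exact hs
  have hgen' : AddSubgroup.closure ((symz V : Finset G) : Set G) = ⊤ := by
    rw [eq_top_iff, ← hgen]
    apply AddSubgroup.closure_mono
    intro v hv
    simp only [symz, Finset.coe_insert, Finset.coe_union, Set.mem_insert_iff, Set.mem_union]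
    right; left; exact hv
  have hl : ∀ s ∈ symz V, lam B s ≤ lam B x := by
    intro s hs
    simp only [symz, Finset.mem_insert, Finset.mem_union, Finset.mem_neg'] at hs
    rcases hs with rfl | hs | hs
    · simp
    · exact hmax s hs
    · rw [← lam_neg]; exact hmax _ hs
  rcases le_total (2 * B.card) (Fintype.card G) with h | h
  · have h1 := olson h0 hsymm hgen' hB h hl
    rw [card_symz hV] at h1
    have h2 : min B.card (Fintype.card G - B.card) = B.card := by
      apply min_eq_left; omega
    rw [h2]
    exact h1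
  · have hne : (univ \ B).Nonempty := by
      rw [Finset.sdiff_nonempty]
      intro hsub
      have := Finset.card_le_card hsub
      rw [Finset.card_univ] at this
      omega
    have hc : (univ \ B).card = Fintype.card G - B.card := by
      rw [Finset.card_sdiff_of_subset (Finset.subset_univ _), Finset.card_univ]
    have hl' : ∀ s ∈ symz V, lam (univ \ B) s ≤ lam B x := by
      intro s hs
      rw [lam_compl (Finset.subset_univ _) (by simp)]
      exact hl s hs
    have h1 := olson h0 hsymm hgen' hne (by rw [hc]; omega) hl'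
    rw [card_symz hV, hc] at h1
    have h2 : min B.card (Fintype.card G - B.card) = Fintype.card G - B.card := by
      apply min_eq_right; omega
    rw [h2]
    exact h1

/-- Guaranteed growth in the initial phase. -/
def gr : ℕ → ℕ
  | 0 => 1
  | i + 1 => gr i + (gr i + 2) / 2

/-- If `|Σ(T)| + |V| ≥ |G|` then `Σ(T ∪ V)` is everything. -/
lemma full_of_card {A T : Finset G} (hA : Asym A) (hT : T ⊆ A)
    (h : Fintype.card G ≤ T.subsetSum.card + (A \ T).card) : A.subsetSum = univ := by
  classical
  have h0 : (0 : G) ∉ A \ T := fun h0 => hA.zero_notMem (Finset.mem_sdiff.mp h0).1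
  have hA2 : A = T ∪ (A \ T) := (Finset.union_sdiff_of_subset hT).symm
  rw [hA2, subsetSum_union Finset.disjoint_sdiff]
  apply Finset.eq_univ_of_forall
  intro g
  set W : Finset G := (insert 0 (A \ T)).image (fun v => g - v) with hW
  have hWc : W.card = (A \ T).card + 1 := by
    rw [hW, Finset.card_image_of_injective _ sub_right_injective,
      Finset.card_insert_of_notMem h0]
  have hne : (T.subsetSum ∩ W).Nonempty := by
    by_contra hcon
    rw [Finset.not_nonempty_iff_eq_empty, ← Finset.disjoint_iff_inter_eq_empty] at hcon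
    have h1 := Finset.card_union_of_disjoint hcon
    have h2 : (T.subsetSum ∪ W).card ≤ Fintype.card G := Finset.card_le_univ _
    omega
  obtain ⟨y, hy⟩ := hne
  rw [Finset.mem_inter, hW, Finset.mem_image] at hy
  obtain ⟨hy1, v, hv, hvy⟩ := hy
  rw [Finset.mem_add]
  refine ⟨y, hy1, v, ?_, by rw [← hvy]; abel⟩
  rw [Finset.mem_insert] at hv
  rcases hv with rfl | hv
  · exact Finset.zero_mem_subsetSum
  · exact Finset.subset_subsetSum hv

/-- The filling lemma: if every proper subgroup misses at least `t` elements of the asymmetric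
set `A`, and `t` is large enough, then the subset sums of `A` are everything. -/
lemma fill {A : Finset G} (hA : Asym A) {w t l : ℕ}
    (hM : ∀ M : AddSubgroup G, M ≠ ⊤ → ∀ F : Finset G, F ⊆ A → (∀ x ∈ F, x ∈ M) →
      F.card + t ≤ A.card)
    (hwt : w + t ≤ A.card) (hl : w + 1 ≤ gr l) (hlt : l ≤ t)
    (ht : 2 * Fintype.card G < (t - l) * (w + 2) + 4 * w + 4) : A.subsetSum = univ := by
  classical
  by_contra hne
  set N := Fintype.card G with hN
  have key : ∀ i ≤ t, ∃ T ⊆ A, T.card = i ∧ (i ≤ l → min (gr i) (w + 1) ≤ T.subsetSum.card) ∧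
      (l ≤ i → 2 * (w + 1) + (i - l) * (w + 2) ≤ 2 * T.subsetSum.card) := by
    intro i
    induction i with
    | zero =>
      intro _
      refine ⟨∅, by simp, by simp, ?_, ?_⟩
      · intro _
        rw [subsetSum_empty']
        simp [gr]
      · intro h
        have hl0 : l = 0 := by omega
        subst hl0
        have : w = 0 := by simp [gr] at hl; omega
        subst this
        rw [subsetSum_empty']
        simp
    | succ i ih =>
      intro hi
      obtain ⟨T, hTA, hTc, h1, h2⟩ := ih (by omega)
      have hVc : (A \ T).card = A.card - i := by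
        rw [Finset.card_sdiff_of_subset hTA, hTc]
      have hVasym : Asym (A \ T) := hA.mono Finset.sdiff_subset
      have hgen : AddSubgroup.closure ((A \ T : Finset G) : Set G) = ⊤ := by
        by_contra hcon
        have := hM _ hcon (A \ T) Finset.sdiff_subset (fun x hx =>
          AddSubgroup.subset_closure hx)
        omega
      have hBig : T.subsetSum.card + (A \ T).card < N := by
        by_contra hcon
        push Not at hcon
        exact hne (full_of_card hA hTA hcon)
      have hBne : T.subsetSum.Nonempty := ⟨0, Finset.zero_mem_subsetSum⟩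
      obtain ⟨x, hx, hlam⟩ := olson_step hVasym hgen hBne (by omega)
      rw [Finset.mem_sdiff] at hx
      have hcard' : (insert x T).subsetSum.card = T.subsetSum.card + lam T.subsetSum x := by
        rw [subsetSum_insert' hx.2, card_union_vadd]
      have hpart1 : i + 1 ≤ l → min (gr (i + 1)) (w + 1) ≤ (insert x T).subsetSum.card := by
        intro hil
        have h1' := h1 (by omega)
        rw [hcard']
        by_cases hbig : w + 1 ≤ T.subsetSum.card
        · exact (min_le_right _ _).trans (by omega)
        · have hg : gr i ≤ T.subsetSum.card := by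
            rcases min_le_iff.mp h1' with h | h
            · exact h
            · omega
          have hg2 : gr (i + 1) = gr i + (gr i + 2) / 2 := rfl
          have hmin : min T.subsetSum.card (N - T.subsetSum.card) = T.subsetSum.card := by
            apply min_eq_left; omega
          rw [← hN, hmin, min_eq_left (by omega)] at hlam
          refine (min_le_left _ _).trans ?_
          omega
      refine ⟨insert x T, ?_, ?_, hpart1, ?_⟩
      · exact Finset.insert_subset hx.1 hTA
      · rw [Finset.card_insert_of_notMem hx.2, hTc]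
      · intro hli
        rcases Nat.eq_or_lt_of_le hli with h | h
        · have h3 := hpart1 (by omega)
          rw [← h, min_eq_right hl] at h3
          have h4 : i + 1 - l = 0 := by omega
          rw [h4]
          omega
        · have h2' := h2 (by omega)
          rw [hcard']
          have h5 : w + 1 ≤ T.subsetSum.card := by
            have : 0 ≤ (i - l) * (w + 2) := Nat.zero_le _
            omega
          have h6 : w + 1 ≤ min T.subsetSum.card (N - T.subsetSum.card) := by
            rw [le_min_iff]; omega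
          have h7 : 2 * w + 4 ≤ 4 * lam T.subsetSum x := by
            refine le_trans ?_ hlam
            rw [le_min_iff]
            omega
          have h8 : (i + 1 - l) * (w + 2) = (i - l) * (w + 2) + (w + 2) := by
            have : i + 1 - l = (i - l) + 1 := by omega
            rw [this]; ring
          rw [h8]
          omega
  obtain ⟨T, hTA, hTc, _, h2⟩ := key t le_rfl
  have h2' := h2 hlt
  have hVc : (A \ T).card = A.card - t := by
    rw [Finset.card_sdiff_of_subset hTA, hTc]
  have hBig : T.subsetSum.card + (A \ T).card < N := by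
    by_contra hcon
    push Not at hcon
    exact hne (full_of_card hA hTA hcon)
  omega

end Pool.Agent.Lib.MP_d3cc86_co
end
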