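import Mathlib
import Pool.Agent.Lib.MP_d3cc86_co.Fill

section

set_option autoImplicit false

open Finset Pointwise

namespace Pool.Agent.Lib.MP_d3cc86_co

universe u

lemma two_mul_card_subgroup_le {G : Type*} [AddCommGroup G] [Fintype G] (M : AddSubgroup G)
    (hM : M ≠ ⊤) : 2 * Nat.card M ≤ Fintype.card G := by
  have h1 : Nat.card M * M.index = Nat.card G := AddSubgroup.card_mul_index M
  have h2 : M.index ≠ 1 := fun h => hM (AddSubgroup.index_eq_one.mp h)
  have h3 : M.index ≠ 0 := AddSubgroup.index_ne_zero_of_finite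
  have h4 : 2 ≤ M.index := by omega
  rw [Nat.card_eq_fintype_card (α := G)] at h1
  rw [← h1, mul_comm]
  exact Nat.mul_le_mul_left _ h4

/-- Descent: a large enough asymmetric set contains many elements of a subgroup all of whose
elements are subset sums of these elements. -/
lemma descent {w l : ℕ} (hw : 4 ≤ w) (hgr : w + 1 ≤ gr (l + 3)) : ∀ (J : ℕ) (G : Type u)
    [AddCommGroup G] [DecidableEq G] [Fintype G] (A : Finset G), Asym A →
    Fintype.card G < 2 ^ J * (2 * w + 1) →
    (w + 2) * w + 4 * Fintype.card G + (w + 2) * l * J ≤ (w + 2) * A.card →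
    ∃ M : AddSubgroup G, ∃ F ⊆ A, (∀ x ∈ F, x ∈ M) ∧ w ≤ F.card ∧ ∀ y ∈ M, y ∈ F.subsetSum := by
  intro J
  induction J with
  | zero =>
    intro G _ _ _ A hA h1 h2
    exfalso
    have h3 := hA.card_le
    have h4 : (w + 2) * w ≤ (w + 2) * A.card := by omega
    have h5 : w ≤ A.card := Nat.le_of_mul_le_mul_left h4 (by omega)
    omega
  | succ J ih =>
    intro G _ _ _ A hA h1 h2
    set N := Fintype.card G with hN
    have hexp : (w + 2) * l * (J + 1) = (w + 2) * l * J + (w + 2) * l := by ring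
    by_cases hsmall : N < 2 ^ J * (2 * w + 1)
    · exact ih G A hA hsmall (by omega)
    push Not at hsmall
    have hN1 : 2 * w + 1 ≤ N := by
      refine le_trans ?_ hsmall
      have : 1 ≤ 2 ^ J := Nat.one_le_two_pow
      nlinarith
    by_cases hfull : A.subsetSum = univ
    · refine ⟨⊤, A, Finset.Subset.refl _, fun x _ => AddSubgroup.mem_top x, ?_, ?_⟩
      · have h4 : (w + 2) * w ≤ (w + 2) * A.card := by omega
        exact Nat.le_of_mul_le_mul_left h4 (by omega)
      · intro y _
        rw [hfull]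
        exact Finset.mem_univ y
    obtain ⟨q, hq1, hq2⟩ : ∃ q : ℕ, 2 * N < q * (w + 2) + 4 * w + 4 ∧
        (w + 2) * q + 3 * w ≤ 2 * N := by
      refine ⟨(2 * N - 4 * w - 4) / (w + 2) + 1, ?_, ?_⟩
      · have := Nat.lt_mul_div_succ (2 * N - 4 * w - 4) (show 0 < w + 2 by omega)
        have h3 : (w + 2) * ((2 * N - 4 * w - 4) / (w + 2) + 1) =
          ((2 * N - 4 * w - 4) / (w + 2) + 1) * (w + 2) := by ring
        omega
      · have h3 : (w + 2) * ((2 * N - 4 * w - 4) / (w + 2)) ≤ 2 * N - 4 * w - 4 :=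
          Nat.mul_div_le _ _
        have h4 : (w + 2) * ((2 * N - 4 * w - 4) / (w + 2) + 1) =
          (w + 2) * ((2 * N - 4 * w - 4) / (w + 2)) + (w + 2) := by ring
        omega
    have hwt : w + (l + 3 + q) ≤ A.card := by
      apply Nat.le_of_mul_le_mul_left _ (show 0 < w + 2 by omega)
      have h3 : (w + 2) * (w + (l + 3 + q)) = (w + 2) * w + (w + 2) * l + 3 * (w + 2) +
        (w + 2) * q := by ring
      rw [h3]
      omega
    have hex : ∃ M : AddSubgroup G, M ≠ ⊤ ∧ ∃ F ⊆ A, (∀ x ∈ F, x ∈ M) ∧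
        A.card < F.card + (l + 3 + q) := by
      by_contra hcon
      push Not at hcon
      apply hfull
      apply fill hA (w := w) (t := l + 3 + q) (l := l + 3) (fun M hM F hF hFM => hcon M hM F hF hFM)
        hwt hgr (by omega)
      have : l + 3 + q - (l + 3) = q := by omega
      rw [this]
      exact hq1
    obtain ⟨M, hM, F, hFA, hFM, hFc⟩ := hex
    classical
    -- pass to the subgroup
    have hMc := two_mul_card_subgroup_le M hM
    rw [Nat.card_eq_fintype_card] at hMc
    set A' : Finset M := F.subtype (fun x => x ∈ M) with hA'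
    have hA'c : A'.card = F.card := by
      rw [hA', Finset.card_subtype]
      congr 1
      exact Finset.filter_true_of_mem hFM
    have hA'asym : Asym A' := by
      intro a ha hna
      rw [hA', Finset.mem_subtype] at ha hna
      exact hA _ (hFA ha) (hFA (by simpa using hna))
    have hmul : (w + 2) * A.card + (w + 2) ≤ (w + 2) * F.card + (w + 2) * (l + 3 + q) := by
      have : A.card + 1 ≤ F.card + (l + 3 + q) := hFc
      have := Nat.mul_le_mul_left (w + 2) this
      linarith
    have hmul2 : (w + 2) * (l + 3 + q) = (w + 2) * l + 3 * (w + 2) + (w + 2) * q := by ring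
    obtain ⟨M', F', hF'A', hF'M', hF'c, hF'sum⟩ := ih M A' hA'asym (by
        have : 2 ^ (J + 1) * (2 * w + 1) = 2 * (2 ^ J * (2 * w + 1)) := by ring
        omega) (by
        rw [hA'c]
        omega)
    refine ⟨M'.map M.subtype, F'.map (Function.Embedding.subtype _), ?_, ?_, ?_, ?_⟩
    · intro x hx
      rw [Finset.mem_map] at hx
      obtain ⟨y, hy, rfl⟩ := hx
      have := hF'A' hy
      rw [hA', Finset.mem_subtype] at this
      exact hFA this
    · intro x hx
      rw [Finset.mem_map] at hx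
      obtain ⟨y, hy, rfl⟩ := hx
      exact AddSubgroup.mem_map.mpr ⟨y, hF'M' y hy, rfl⟩
    · rw [Finset.card_map]
      exact hF'c
    · intro y hy
      rw [AddSubgroup.mem_map] at hy
      obtain ⟨z, hz, rfl⟩ := hy
      have hz' := hF'sum z hz
      rw [Finset.mem_subsetSum_iff] at hz' ⊢
      obtain ⟨B, hB, rfl⟩ := hz'
      refine ⟨B.map (Function.Embedding.subtype _), Finset.map_subset_map.mpr hB, ?_⟩
      rw [Finset.sum_map, map_sum]
      rfl

end Pool.Agent.Lib.MP_d3cc86_co
end

section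

set_option autoImplicit false

namespace Pool.Agent.Lib.MP_d3cc86_co

lemma gr_pos (i : ℕ) : 1 ≤ gr i := by
  induction i with
  | zero => simp [gr]
  | succ i ih => simp only [gr]; omega

lemma gr_add_two (i : ℕ) : 2 * gr i ≤ gr (i + 2) := by
  have h := gr_pos i
  have h1 : gr (i + 1) = gr i + (gr i + 2) / 2 := rfl
  have h2 : gr (i + 2) = gr (i + 1) + (gr (i + 1) + 2) / 2 := rfl
  omega

lemma gr_mono_succ (i : ℕ) : gr i ≤ gr (i + 1) := by
  have h1 : gr (i + 1) = gr i + (gr i + 2) / 2 := rfl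
  omega

lemma gr_two_mul (K : ℕ) (hK : 1 ≤ K) : 2 ^ (K + 1) ≤ gr (2 * K) := by
  induction K, hK using Nat.le_induction with
  | base => simp [gr]
  | succ K hK ih =>
    have h := gr_add_two (2 * K)
    have h2 : 2 * (K + 1) = 2 * K + 2 := by ring
    rw [h2]
    calc 2 ^ (K + 1 + 1) = 2 * 2 ^ (K + 1) := by ring
      _ ≤ 2 * gr (2 * K) := by omega
      _ ≤ _ := h

lemma gr6 : gr 6 = 26 := by simp [gr]
lemma gr7 : gr 7 = 40 := by
  have : gr 7 = gr 6 + (gr 6 + 2) / 2 := rfl
  rw [this, gr6]
lemma gr8 : gr 8 = 61 := by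
  have : gr 8 = gr 7 + (gr 7 + 2) / 2 := rfl
  rw [this, gr7]
lemma gr9 : gr 9 = 92 := by
  have : gr 9 = gr 8 + (gr 8 + 2) / 2 := rfl
  rw [this, gr8]
lemma gr10 : gr 10 = 139 := by
  have : gr 10 = gr 9 + (gr 9 + 2) / 2 := rfl
  rw [this, gr9]

lemma pow_ineq (K : ℕ) (hK : 7 ≤ K) : 25 * ((2 * K - 3) * (K - 1)) ≤ 14 * 2 ^ K + 14 := by
  induction K, hK using Nat.le_induction with
  | base => norm_num
  | succ K hK ih =>
    obtain ⟨k, rfl⟩ : ∃ k, K = k + 7 := ⟨K - 7, by omega⟩
    have e1 : 2 * (k + 7) - 3 = 2 * k + 11 := by omega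
    have e2 : k + 7 - 1 = k + 6 := by omega
    have e3 : 2 * (k + 7 + 1) - 3 = 2 * k + 13 := by omega
    have e4 : k + 7 + 1 - 1 = k + 7 := by omega
    rw [e1, e2] at ih
    rw [e3, e4]
    have h1 : 25 * (4 * k + 25) ≤ 14 * 2 ^ (k + 7) := by
      have h2 : k + 1 ≤ 2 ^ k := Nat.succ_le_of_lt Nat.lt_two_pow_self
      have h3 : 2 ^ (k + 7) = 128 * 2 ^ k := by ring
      rw [h3]
      omega
    have h4 : 2 ^ (k + 7 + 1) = 2 * 2 ^ (k + 7) := by ring
    rw [h4]
    nlinarith

/-- The choice of parameters. -/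
lemma exists_params (w : ℕ) (hw : 17 ≤ w) : ∃ l J : ℕ, w + 1 ≤ gr (l + 3) ∧ 9 * w ≤ 50 * 2 ^ J ∧
    25 * (l * J) ≤ 14 * w + 14 := by
  by_cases h1 : w ≤ 22
  · exact ⟨3, 2, by rw [gr6]; omega, by omega, by omega⟩
  by_cases h2 : w ≤ 25
  · exact ⟨3, 3, by rw [gr6]; omega, by omega, by omega⟩
  by_cases h3 : w ≤ 39
  · exact ⟨4, 3, by rw [gr7]; omega, by omega, by omega⟩
  by_cases h4 : w ≤ 60
  · exact ⟨5, 4, by rw [gr8]; omega, by omega, by omega⟩
  by_cases h5 : w ≤ 91
  · exact ⟨6, 5, by rw [gr9]; omega, by omega, by omega⟩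
  by_cases h6 : w ≤ 138
  · exact ⟨7, 5, by rw [gr10]; omega, by omega, by omega⟩
  · set K := Nat.log 2 w with hK
    have hK1 : 2 ^ K ≤ w := Nat.pow_log_le_self 2 (by omega)
    have hK2 : w < 2 ^ (K + 1) := Nat.lt_pow_succ_log_self (by omega) w
    have hK7 : 7 ≤ K := by
      rw [hK]
      apply Nat.le_log_of_pow_le (by omega)
      omega
    obtain ⟨k, hk⟩ : ∃ k, K = k + 7 := ⟨K - 7, by omega⟩
    refine ⟨2 * K - 3, K - 1, ?_, ?_, ?_⟩
    · have e : 2 * K - 3 + 3 = 2 * K := by omega
      rw [e]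
      exact (Nat.succ_le_of_lt hK2).trans (gr_two_mul K (by omega))
    · have e : 2 ^ (K + 1) = 4 * 2 ^ (K - 1) := by
        have : K + 1 = (K - 1) + 2 := by omega
        rw [this, pow_add]; ring
      omega
    · have := pow_ineq K hK7
      omega

/-- Numerical input for the descent. -/
lemma params_ok {n m w l J : ℕ} (hw : 17 ≤ w) (hm1 : 3 * w ≤ m + 2) (hm2 : m ≤ 3 * w)
    (hn : 25 * n ≤ m ^ 2) (h2 : 9 * w ≤ 50 * 2 ^ J) (h3 : 25 * (l * J) ≤ 14 * w + 14) :
    n < 2 ^ J * (2 * w + 1) ∧ (w + 2) * w + 4 * n + (w + 2) * l * J ≤ (w + 2) * m := by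
  have hm3 : m ^ 2 ≤ 9 * w ^ 2 := by nlinarith
  constructor
  · by_contra hcon
    push Not at hcon
    have h4 : 25 * (2 ^ J * (2 * w + 1)) ≤ 9 * w ^ 2 := by omega
    have h5 : 9 * w * w ≤ 50 * 2 ^ J * w := Nat.mul_le_mul_right _ h2
    have h6 : 1 ≤ 2 ^ J := Nat.one_le_two_pow
    nlinarith
  · have h4 : 25 * ((w + 2) * w + 4 * n + (w + 2) * l * J) ≤ 25 * ((w + 2) * m) := by
      have h5 : (w + 2) * (25 * (l * J)) ≤ (w + 2) * (14 * w + 14) := Nat.mul_le_mul_left _ h3
      have h6 : (w + 2) * (3 * w) ≤ (w + 2) * (m + 2) := Nat.mul_le_mul_left _ hm1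
      nlinarith
    omega

end Pool.Agent.Lib.MP_d3cc86_co
end

section

set_option autoImplicit false

open Finset Pointwise

namespace Pool.Agent.Lib.MP_d3cc86_co

universe u

variable {G : Type u} [AddCommGroup G] [DecidableEq G] [Fintype G]

omit [Fintype G] in
/-- If a union of `H`-cosets is not fixed by a translation then adding the translate adds at
least `|H|` elements. -/
lemma card_union_vadd_periodic {P Hf : Finset G} {x : G} (hP : P + Hf = P)
    (hHneg : ∀ h ∈ Hf, -h ∈ Hf) (hx : x +ᵥ P ≠ P) :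
    P.card + Hf.card ≤ (P ∪ (x +ᵥ P)).card := by
  have hns : ¬ (x +ᵥ P) ⊆ P := by
    intro h
    exact hx (Finset.eq_of_subset_of_card_le h (by rw [Finset.card_vadd_finset]))
  obtain ⟨y, hy, hyP⟩ := Finset.not_subset.mp hns
  have hadd : ∀ p ∈ P, ∀ h ∈ Hf, p + h ∈ P := by
    intro p hp h hh
    rw [← hP]
    exact Finset.add_mem_add hp hh
  have hdisj : Disjoint P (y +ᵥ Hf) := by
    rw [Finset.disjoint_left]
    intro z hz hz'
    rw [Finset.mem_vadd_finset] at hz'
    obtain ⟨h, hh, rfl⟩ := hz'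
    apply hyP
    have := hadd _ hz (-h) (hHneg h hh)
    simpa using this
  have hsub : P ∪ (y +ᵥ Hf) ⊆ P ∪ (x +ᵥ P) := by
    apply Finset.union_subset_union (Finset.Subset.refl _)
    intro z hz
    rw [Finset.mem_vadd_finset] at hz hy
    obtain ⟨h, hh, rfl⟩ := hz
    obtain ⟨p, hp, rfl⟩ := hy
    rw [Finset.mem_vadd_finset]
    refine ⟨p + h, hadd p hp h hh, ?_⟩
    simp [add_assoc]
  have := Finset.card_le_card hsub
  rw [Finset.card_union_of_disjoint hdisj, Finset.card_vadd_finset] at this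
  exact this

/-- Lower bound for the number of subset sums in terms of the stabilizer. -/
lemma stabilizer_bound (A : Finset G) (H : AddSubgroup G) (Hf : Finset G)
    (hHf : ∀ x, x ∈ Hf ↔ x ∈ H) (hH : ∀ x, x ∈ H ↔ x +ᵥ A.subsetSum = A.subsetSum) :
    ∀ T : Finset G, T ⊆ A → (∀ x ∈ T, x ∉ H) →
      Hf.card * (T.card + 1) ≤ (T.subsetSum + Hf).card := by
  have h0 : (0 : G) ∈ Hf := (hHf 0).mpr H.zero_mem
  have hHH : Hf + Hf = Hf := by
    apply Finset.Subset.antisymm
    · intro z hz
      rw [Finset.mem_add] at hz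
      obtain ⟨a, ha, b, hb, rfl⟩ := hz
      rw [hHf] at ha hb ⊢
      exact H.add_mem ha hb
    · intro z hz
      rw [Finset.mem_add]
      exact ⟨z, hz, 0, h0, add_zero z⟩
  have hneg : ∀ h ∈ Hf, -h ∈ Hf := by
    intro h hh
    rw [hHf] at hh ⊢
    exact H.neg_mem hh
  have hAH : A.subsetSum + Hf = A.subsetSum := by
    apply Finset.Subset.antisymm
    · intro z hz
      rw [Finset.mem_add] at hz
      obtain ⟨a, ha, b, hb, rfl⟩ := hz
      rw [hHf, hH] at hb
      rw [← hb, Finset.mem_vadd_finset]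
      exact ⟨a, ha, by simp [add_comm]⟩
    · intro z hz
      rw [Finset.mem_add]
      exact ⟨z, hz, 0, h0, add_zero z⟩
  intro T
  induction T using Finset.induction_on with
  | empty =>
    intro _ _
    rw [subsetSum_empty']
    simp
  | insert x T hxT ih =>
    intro hTA hTH
    have hTA' : T ⊆ A := (Finset.subset_insert x T).trans hTA
    have h1 := ih hTA' (fun y hy => hTH y (Finset.mem_insert_of_mem hy))
    set P := T.subsetSum + Hf with hP
    have hPH : P + Hf = P := by rw [hP, add_assoc, hHH]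
    have hne : x +ᵥ P ≠ P := by
      intro hcon
      apply hTH x (Finset.mem_insert_self x T)
      rw [hH]
      have h2 : A.subsetSum = P + (A \ T).subsetSum := by
        have h3 : A.subsetSum = T.subsetSum + (A \ T).subsetSum := by
          rw [← subsetSum_union Finset.disjoint_sdiff, Finset.union_sdiff_of_subset hTA']
        rw [hP, add_right_comm, ← h3, hAH]
      rw [h2, ← vadd_add_assoc, hcon]
    have h4 := card_union_vadd_periodic hPH hneg hne
    have h5 : (insert x T).subsetSum + Hf = P ∪ (x +ᵥ P) := by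
      rw [subsetSum_insert' hxT, Finset.union_add, vadd_add_assoc]
    rw [h5, Finset.card_insert_of_notMem hxT]
    nlinarith

/-- The general lower bound, valid in every finite abelian group. -/
theorem lower_bound (A : Finset G) (hA : Asym A) (h25 : 25 * Fintype.card G ≤ A.card ^ 2) :
    ∃ H : AddSubgroup G, A.card ≤ Nat.card H ∧
      Nat.card H * (A.card - (Nat.card H - 1) / 2 + 1) ≤ A.subsetSum.card := by
  classical
  set N := Fintype.card G with hN
  set m := A.card with hm
  have hmN : 2 * m + 1 ≤ N := hA.card_le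
  have hm51 : 51 ≤ m := by nlinarith
  obtain ⟨w, hw1, hw2⟩ : ∃ w, 3 * w ≤ m + 2 ∧ m ≤ 3 * w := ⟨(m + 2) / 3, by omega, by omega⟩
  have hw17 : 17 ≤ w := by omega
  obtain ⟨l, J, hp1, hp2, hp3⟩ := exists_params w hw17
  obtain ⟨hq1, hq2⟩ := params_ok hw17 hw1 hw2 h25 hp2 hp3
  obtain ⟨M, F, hFA, hFM, hFc, hFs⟩ := descent (by omega) hp1 J G A hA hq1 hq2
  -- the stabilizer
  let H : AddSubgroup G := AddAction.stabilizer G A.subsetSum
  have hH : ∀ x, x ∈ H ↔ x +ᵥ A.subsetSum = A.subsetSum := fun x =>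
    AddAction.mem_stabilizer_iff
  have hMH : M ≤ H := by
    intro x hx
    rw [hH]
    have h3 : A.subsetSum = F.subsetSum + (A \ F).subsetSum := by
      rw [← subsetSum_union Finset.disjoint_sdiff, Finset.union_sdiff_of_subset hFA]
    have hFM' : ∀ y, y ∈ F.subsetSum ↔ y ∈ M := by
      intro y
      constructor
      · intro hy
        rw [Finset.mem_subsetSum_iff] at hy
        obtain ⟨B, hB, rfl⟩ := hy
        exact M.sum_mem (fun b hb => hFM b (hB hb))
      · exact hFs y
    have h4 : x +ᵥ F.subsetSum = F.subsetSum := by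
      ext y
      rw [Finset.mem_vadd_finset, hFM']
      constructor
      · rintro ⟨z, hz, rfl⟩
        rw [hFM'] at hz
        exact M.add_mem hx hz
      · intro hy
        refine ⟨-x + y, ?_, by simp⟩
        rw [hFM']
        exact M.add_mem (M.neg_mem hx) hy
    rw [h3, ← vadd_add_assoc, h4]
  set Hf : Finset G := univ.filter (fun x => x ∈ H) with hHfdef
  have hHf : ∀ x, x ∈ Hf ↔ x ∈ H := fun x => by simp [hHfdef]
  have hHfc : Hf.card = Nat.card H := by
    rw [Nat.card_eq_fintype_card, Fintype.card_subtype]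
  have hbound := stabilizer_bound A H Hf hHf hH (A.filter (fun x => x ∉ H))
    (Finset.filter_subset _ _) (fun x hx => (Finset.mem_filter.mp hx).2)
  have hle : ((A.filter (fun x => x ∉ H)).subsetSum + Hf).card ≤ A.subsetSum.card := by
    apply Finset.card_le_card
    intro z hz
    rw [Finset.mem_add] at hz
    obtain ⟨a, ha, b, hb, rfl⟩ := hz
    have ha' : a ∈ A.subsetSum := Finset.subsetSum_mono (Finset.filter_subset _ _) ha
    rw [hHf, hH] at hb
    rw [← hb, Finset.mem_vadd_finset]
    exact ⟨a, ha', by simp [add_comm]⟩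
  -- the part of A inside H
  have hin : 2 * (A.filter (fun x => x ∈ H)).card + 1 ≤ Nat.card H := by
    set A' : Finset H := A.subtype (fun x => x ∈ H) with hA'
    have hA'asym : Asym A' := by
      intro a ha hna
      rw [hA', Finset.mem_subtype] at ha hna
      exact hA _ ha (by simpa using hna)
    have h5 := hA'asym.card_le
    rw [hA', Finset.card_subtype, ← Nat.card_eq_fintype_card] at h5
    exact h5
  have hsplit : (A.filter (fun x => x ∈ H)).card + (A.filter (fun x => x ∉ H)).card = m := by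
    rw [hm]
    exact Finset.card_filter_add_card_filter_not (fun x => x ∈ H)
  have hF2 : 2 * F.card + 1 ≤ Nat.card M := by
    set F' : Finset M := F.subtype (fun x => x ∈ M) with hF'
    have hF'asym : Asym F' := by
      intro a ha hna
      rw [hF', Finset.mem_subtype] at ha hna
      exact hA _ (hFA ha) (hFA (by simpa using hna))
    have h5 := hF'asym.card_le
    rw [hF', Finset.card_subtype, ← Nat.card_eq_fintype_card] at h5
    rwa [Finset.filter_true_of_mem hFM] at h5
  have hMHc : Nat.card M ≤ Nat.card H := AddSubgroup.card_le_of_le hMH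
  set h := Nat.card H with hh
  rw [hHfc] at hbound
  have hfinal : h * (m - (h - 1) / 2 + 1) ≤ A.subsetSum.card := by
    refine le_trans (le_trans (Nat.mul_le_mul_left h ?_) hbound) hle
    omega
  refine ⟨H, ?_, hfinal⟩
  by_contra hcon
  push Not at hcon
  rw [← hh] at hcon
  have h6 : A.subsetSum.card ≤ N := Finset.card_le_univ _
  have h7 : 3 * h ≥ 2 * m + 3 := by omega
  have h8 : 2 * (m - (h - 1) / 2 + 1) ≥ m + 2 := by omega
  have h9 : (3 * h) * (2 * (m - (h - 1) / 2 + 1)) ≤ 6 * N := by
    calc (3 * h) * (2 * (m - (h - 1) / 2 + 1)) = 6 * (h * (m - (h - 1) / 2 + 1)) := by ring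
      _ ≤ 6 * N := by omega
  have h10 : (2 * m + 3) * (m + 2) ≤ (3 * h) * (2 * (m - (h - 1) / 2 + 1)) :=
    Nat.mul_le_mul h7 h8
  nlinarith

end Pool.Agent.Lib.MP_d3cc86_co
end

section

set_option autoImplicit false

open Finset Pointwise

namespace Pool.Agent.Lib.MP_d3cc86_co

/-- A set of natural representatives gives an asymmetric set of residues. -/
lemma reps {n : ℕ} (hn : 0 < n) (R : Finset ℕ) (h1 : ∀ r ∈ R, 0 < r ∧ r < n)
    (h2 : ∀ r ∈ R, ∀ s ∈ R, r + s ≠ n) :
    (R.image (fun r : ℕ => (r : ZMod n))).card = R.card ∧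
      Asym (R.image (fun r : ℕ => (r : ZMod n))) := by
  haveI : NeZero n := ⟨hn.ne'⟩
  constructor
  · apply Finset.card_image_of_injOn
    intro r hr s hs hrs
    have hr' := h1 r hr
    have hs' := h1 s hs
    have h3 : (r : ZMod n) = (s : ZMod n) := hrs
    rw [ZMod.natCast_eq_natCast_iff'] at h3
    rwa [Nat.mod_eq_of_lt hr'.2, Nat.mod_eq_of_lt hs'.2] at h3
  · intro a ha hna
    rw [Finset.mem_image] at ha hna
    obtain ⟨r, hr, rfl⟩ := ha
    obtain ⟨s, hs, hsr⟩ := hna
    have hr' := h1 r hr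
    have hs' := h1 s hs
    have h3 : ((r + s : ℕ) : ZMod n) = 0 := by
      push_cast
      rw [hsr]
      ring
    rw [ZMod.natCast_eq_zero_iff] at h3
    obtain ⟨c, hc⟩ := h3
    have hc1 : c = 1 := by
      have h4 : n * c < n * 2 := by omega
      have h5 : c < 2 := Nat.lt_of_mul_lt_mul_left h4
      have h6 : 0 < c := by
        rcases Nat.eq_zero_or_pos c with h | h
        · subst h; omega
        · exact h
      omega
    subst hc1
    exact h2 r hr s hs (by omega)

/-- Bound for the subset sums of a set contained in two cosets. -/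
lemma subsetSum_card_le {n : ℕ} (hn : 0 < n) {h k m1 : ℕ} (hk : n = h * k) (A0 A1 : Finset (ZMod n))
    (hdisj : Disjoint A0 A1)
    (h0 : ∀ a ∈ A0, a ∈ AddSubgroup.zmultiples (k : ZMod n))
    (h1 : ∀ a ∈ A1, a - 1 ∈ AddSubgroup.zmultiples (k : ZMod n)) (hc : A1.card ≤ m1) :
    (A0 ∪ A1).subsetSum.card ≤ h * (m1 + 1) := by
  classical
  haveI : NeZero n := ⟨hn.ne'⟩
  have hh0 : 0 < h := by
    rcases Nat.eq_zero_or_pos h with h' | h'
    · subst h'; omega
    · exact h'
  have hk0 : 0 < k := by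
    rcases Nat.eq_zero_or_pos k with h' | h'
    · subst h'; omega
    · exact h'
  set K := AddSubgroup.zmultiples (k : ZMod n) with hK
  set Kf : Finset (ZMod n) := univ.filter (fun x => x ∈ K) with hKf
  have hKc : Kf.card = h := by
    have e1 : Kf.card = Nat.card K := by
      rw [Nat.card_eq_fintype_card, Fintype.card_subtype]
    rw [e1, hK, Nat.card_zmultiples, ZMod.addOrderOf_coe _ hn.ne']
    rw [hk]
    have : Nat.gcd (h * k) k = k := Nat.gcd_eq_right (Dvd.intro_left h rfl)
    rw [this]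
    exact Nat.mul_div_cancel _ hk0
  have hsub : (A0 ∪ A1).subsetSum ⊆
      (Finset.range (m1 + 1) ×ˢ Kf).image (fun p : ℕ × ZMod n => (p.1 : ZMod n) + p.2) := by
    rw [subsetSum_union hdisj]
    intro x hx
    rw [Finset.mem_add] at hx
    obtain ⟨y, hy, z, hz, rfl⟩ := hx
    rw [Finset.mem_subsetSum_iff] at hy hz
    obtain ⟨B0, hB0, rfl⟩ := hy
    obtain ⟨B1, hB1, rfl⟩ := hz
    rw [Finset.mem_image]
    refine ⟨(B1.card, ∑ b ∈ B0, b + ∑ b ∈ B1, (b - 1)), ?_, ?_⟩
    · rw [Finset.mem_product, Finset.mem_range, hKf, Finset.mem_filter]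
      refine ⟨?_, Finset.mem_univ _, ?_⟩
      · have := Finset.card_le_card hB1
        simp only
        omega
      · apply K.add_mem
        · exact K.sum_mem (fun b hb => h0 b (hB0 hb))
        · exact K.sum_mem (fun b hb => h1 b (hB1 hb))
    · simp only [Finset.sum_sub_distrib, Finset.sum_const, nsmul_eq_mul, mul_one]
      ring
  calc _ ≤ _ := Finset.card_le_card hsub
    _ ≤ _ := Finset.card_image_le
    _ = _ := by rw [Finset.card_product, Finset.card_range, hKc, mul_comm]

theorem upper_bound {n m h : ℕ} (hn : 0 < n) (hm : m ≤ (n - 1) / 2) (hdvd : h ∣ n) (hmh : m ≤ h) :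
    ∃ A : Finset (ZMod n), A.card = m ∧ Asym A ∧
      A.subsetSum.card ≤ h * (m - (h - 1) / 2 + 1) := by
  classical
  haveI : NeZero n := ⟨hn.ne'⟩
  obtain ⟨k, hk⟩ := hdvd
  have hh0 : 0 < h := by
    rcases Nat.eq_zero_or_pos h with h' | h'
    · subst h'; omega
    · exact h'
  have hk0 : 0 < k := by
    rcases Nat.eq_zero_or_pos k with h' | h'
    · subst h'; omega
    · exact h'
  by_cases hcase : m ≤ (h - 1) / 2
  · -- inside the subgroup
    set R : Finset ℕ := (Finset.Icc 1 m).image (fun j => j * k) with hR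
    have hRc : R.card = m := by
      rw [hR, Finset.card_image_of_injective _ (fun a b hab => Nat.eq_of_mul_eq_mul_right hk0 hab),
        Nat.card_Icc]
      omega
    have hbound : ∀ j, j ≤ m → 2 * (j * k) < n := by
      intro j hj
      have e : 2 * (j * k) = (2 * j) * k := by ring
      rw [e, hk]
      exact Nat.mul_lt_mul_of_pos_right (by omega) hk0
    obtain ⟨hc, ha⟩ := reps hn R (by
      intro r hr
      rw [hR, Finset.mem_image] at hr
      obtain ⟨j, hj, rfl⟩ := hr
      rw [Finset.mem_Icc] at hj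
      have := hbound j hj.2
      exact ⟨Nat.mul_pos (by omega) hk0, by omega⟩) (by
      intro r hr s hs
      rw [hR, Finset.mem_image] at hr hs
      obtain ⟨j, hj, rfl⟩ := hr
      obtain ⟨i, hi, rfl⟩ := hs
      rw [Finset.mem_Icc] at hj hi
      have h1 := hbound j hj.2
      have h2 := hbound i hi.2
      omega)
    refine ⟨R.image (fun r : ℕ => (r : ZMod n)), by rw [hc, hRc], ha, ?_⟩
    have h3 := subsetSum_card_le hn hk (m1 := 0) (R.image (fun r : ℕ => (r : ZMod n))) ∅
      (by simp) (by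
        intro a ha
        rw [Finset.mem_image] at ha
        obtain ⟨r, hr, rfl⟩ := ha
        rw [hR, Finset.mem_image] at hr
        obtain ⟨j, _, rfl⟩ := hr
        rw [AddSubgroup.mem_zmultiples_iff]
        exact ⟨j, by simp⟩) (by simp) (by simp)
    rw [Finset.union_empty] at h3
    refine h3.trans (Nat.mul_le_mul_left h ?_)
    omega
  push Not at hcase
  by_cases hk2 : k ≤ 2
  · -- trivial bound
    set R : Finset ℕ := Finset.Icc 1 m with hR
    obtain ⟨hc, ha⟩ := reps hn R (by
      intro r hr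
      rw [hR, Finset.mem_Icc] at hr
      omega) (by
      intro r hr s hs
      rw [hR, Finset.mem_Icc] at hr hs
      omega)
    refine ⟨R.image (fun r : ℕ => (r : ZMod n)), by rw [hc, hR, Nat.card_Icc]; omega, ha, ?_⟩
    calc _ ≤ Fintype.card (ZMod n) := Finset.card_le_univ _
      _ = h * k := by rw [ZMod.card, hk]
      _ ≤ _ := Nat.mul_le_mul_left h (by omega)
  · push Not at hk2
    set m0 := (h - 1) / 2 with hm0
    set R0 : Finset ℕ := (Finset.Icc 1 m0).image (fun j => j * k) with hR0
    set R1 : Finset ℕ := (Finset.range (m - m0)).image (fun j => 1 + j * k) with hR1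
    have hR0c : R0.card = m0 := by
      rw [hR0, Finset.card_image_of_injective _ (fun a b hab => Nat.eq_of_mul_eq_mul_right hk0 hab),
        Nat.card_Icc]
      omega
    have hR1c : R1.card = m - m0 := by
      rw [hR1, Finset.card_image_of_injective, Finset.card_range]
      intro a b hab
      have : a * k = b * k := by
        have : 1 + a * k = 1 + b * k := hab
        omega
      exact Nat.eq_of_mul_eq_mul_right hk0 this
    have hmod0 : ∀ r ∈ R0, ∃ j, r = j * k ∧ 0 < j ∧ 2 * (j * k) < n := by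
      intro r hr
      rw [hR0, Finset.mem_image] at hr
      obtain ⟨j, hj, rfl⟩ := hr
      rw [Finset.mem_Icc] at hj
      refine ⟨j, rfl, by omega, ?_⟩
      have e : 2 * (j * k) = (2 * j) * k := by ring
      rw [e, hk]
      exact Nat.mul_lt_mul_of_pos_right (by omega) hk0
    have hmod1 : ∀ r ∈ R1, ∃ j, r = 1 + j * k ∧ r < n := by
      intro r hr
      rw [hR1, Finset.mem_image] at hr
      obtain ⟨j, hj, rfl⟩ := hr
      rw [Finset.mem_range] at hj
      refine ⟨j, rfl, ?_⟩
      have h1 : (j + 1) * k ≤ h * k := Nat.mul_le_mul_right k (by omega)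
      have h2 : (j + 1) * k = j * k + k := by ring
      omega
    have hmodn : n % k = 0 := by rw [hk]; exact Nat.mul_mod_left h k
    have hRdisj : Disjoint R0 R1 := by
      rw [Finset.disjoint_left]
      intro r h0 h1
      obtain ⟨j, hj, _⟩ := hmod0 r h0
      obtain ⟨i, hi, _⟩ := hmod1 r h1
      have e1 : r % k = 0 := by rw [hj]; exact Nat.mul_mod_left j k
      have e2 : r % k = 1 := by
        rw [hi, Nat.add_mul_mod_self_right]
        exact Nat.mod_eq_of_lt (by omega)
      omega
    obtain ⟨hc, ha⟩ := reps hn (R0 ∪ R1) (by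
      intro r hr
      rw [Finset.mem_union] at hr
      rcases hr with hr | hr
      · obtain ⟨j, rfl, hj0, hj⟩ := hmod0 r hr
        exact ⟨Nat.mul_pos hj0 hk0, by omega⟩
      · obtain ⟨j, hj, hjn⟩ := hmod1 r hr
        exact ⟨by omega, hjn⟩) (by
      intro r hr s hs hrs
      rw [Finset.mem_union] at hr hs
      rcases hr with hr | hr <;> rcases hs with hs | hs
      · obtain ⟨j, rfl, _, hj⟩ := hmod0 r hr
        obtain ⟨i, rfl, _, hi⟩ := hmod0 s hs
        omega
      · obtain ⟨j, rfl, _, hj⟩ := hmod0 r hr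
        obtain ⟨i, rfl, _⟩ := hmod1 s hs
        have e : (j * k + (1 + i * k)) % k = 1 := by
          have : j * k + (1 + i * k) = 1 + (j + i) * k := by ring
          rw [this, Nat.add_mul_mod_self_right]
          exact Nat.mod_eq_of_lt (by omega)
        rw [hrs] at e
        omega
      · obtain ⟨j, rfl, _⟩ := hmod1 r hr
        obtain ⟨i, rfl, _, hi⟩ := hmod0 s hs
        have e : (1 + j * k + i * k) % k = 1 := by
          have : 1 + j * k + i * k = 1 + (j + i) * k := by ring
          rw [this, Nat.add_mul_mod_self_right]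
          exact Nat.mod_eq_of_lt (by omega)
        rw [hrs] at e
        omega
      · obtain ⟨j, rfl, _⟩ := hmod1 r hr
        obtain ⟨i, rfl, _⟩ := hmod1 s hs
        have e : (1 + j * k + (1 + i * k)) % k = 2 := by
          have : 1 + j * k + (1 + i * k) = 2 + (j + i) * k := by ring
          rw [this, Nat.add_mul_mod_self_right]
          exact Nat.mod_eq_of_lt (by omega)
        rw [hrs] at e
        omega)
    refine ⟨(R0 ∪ R1).image (fun r : ℕ => (r : ZMod n)), ?_, ha, ?_⟩
    · rw [hc, Finset.card_union_of_disjoint hRdisj, hR0c, hR1c]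
      omega
    · have himg : Disjoint (R0.image (fun r : ℕ => (r : ZMod n)))
          (R1.image (fun r : ℕ => (r : ZMod n))) := by
        rw [Finset.disjoint_left]
        intro x hx0 hx1
        rw [Finset.mem_image] at hx0 hx1
        obtain ⟨r, hr, rfl⟩ := hx0
        obtain ⟨s, hs, hsr⟩ := hx1
        obtain ⟨j, hj, hj0, hjn⟩ := hmod0 r hr
        obtain ⟨i, hi, hin⟩ := hmod1 s hs
        have hrn : r < n := by omega
        rw [ZMod.natCast_eq_natCast_iff', Nat.mod_eq_of_lt hin, Nat.mod_eq_of_lt hrn] at hsr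
        subst hsr
        exact Finset.disjoint_left.mp hRdisj hr hs
      rw [Finset.image_union]
      refine subsetSum_card_le hn hk _ _ himg ?_ ?_ ?_
      · intro a ha
        rw [Finset.mem_image] at ha
        obtain ⟨r, hr, rfl⟩ := ha
        obtain ⟨j, rfl, _⟩ := hmod0 r hr
        rw [AddSubgroup.mem_zmultiples_iff]
        exact ⟨j, by simp⟩
      · intro a ha
        rw [Finset.mem_image] at ha
        obtain ⟨r, hr, rfl⟩ := ha
        obtain ⟨j, rfl, _⟩ := hmod1 r hr
        rw [AddSubgroup.mem_zmultiples_iff]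
        exact ⟨j, by simp⟩
      · exact Finset.card_image_le.trans (by rw [hR1c])

end Pool.Agent.Lib.MP_d3cc86_co
end
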